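import Pool.Agent.H337R3.Sid7

set_option autoImplicit false
set_option linter.unusedSectionVars false

namespace Pool.Agent.J4H85.SG

open MeasureTheory Finset

universe u

/-- Convexity of the exponential: the factor of a Riesz product. -/
theorem exp_le_cosh_add (r y : ℝ) (hy : |y| ≤ r) :
    Real.exp y ≤ Real.cosh r + y * (Real.sinh r / r) := by
  have hr : 0 ≤ r := le_trans (abs_nonneg _) hy
  rcases hr.eq_or_lt with h | h
  · subst h
    have : y = 0 := abs_nonpos_iff.mp hy
    subst this
    simp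
  · obtain ⟨h1, h2⟩ := abs_le.mp hy
    have ha : 0 ≤ (1 + y / r) / 2 := by
      have : -1 ≤ y / r := by rw [le_div_iff₀ h]; linarith
      linarith
    have hb : 0 ≤ (1 - y / r) / 2 := by
      have : y / r ≤ 1 := by rw [div_le_iff₀ h]; linarith
      linarith
    have hc := convexOn_exp.2 (Set.mem_univ r) (Set.mem_univ (-r)) ha hb (by ring)
    have e1 : (1 + y / r) / 2 * r + (1 - y / r) / 2 * (-r) = y := by
      field_simp
      ring
    simp only [smul_eq_mul] at hc
    rw [e1] at hc
    refine hc.trans (le_of_eq ?_)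
    rw [Real.cosh_eq, Real.sinh_eq]
    field_simp
    ring

/-- One term of the hyperbolic cosine series. -/
theorem pow_le_cosh (y : ℝ) (k : ℕ) : y ^ (2 * k) / (2 * k).factorial ≤ Real.cosh y := by
  have h := Real.hasSum_cosh y
  exact le_hasSum h k (fun j _ => by
    have : 0 ≤ y ^ (2 * j) := by rw [pow_mul]; positivity
    positivity)

theorem fact_le (k : ℕ) : ((2 * k).factorial : ℝ) ≤ k.factorial * (2 * k) ^ k := by
  have h : (2 * k).factorial ≤ k.factorial * (2 * k) ^ k := by
    have h2 : (k + k).factorial = k.factorial * (k + 1).ascFactorial k := by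
      rw [Nat.factorial_mul_ascFactorial]
    rw [two_mul, h2]
    apply Nat.mul_le_mul_left
    exact (Nat.ascFactorial_le_pow_add _ _).trans (by
      apply Nat.pow_le_pow_left; omega)
  exact_mod_cast h


/-- A system of characters on a probability space. -/
structure CharSys {X : Type*} [MeasurableSpace X] (m : Measure X) {Γ : Type u} [AddCommGroup Γ]
    (χ : Γ → X → ℂ) : Prop where
  zero : ∀ x, χ 0 x = 1
  add : ∀ a b x, χ (a + b) x = χ a x * χ b x
  norm : ∀ a x, ‖χ a x‖ = 1
  meas : ∀ a, Measurable (χ a)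
  orth : ∀ a, a ≠ 0 → ∫ x, χ a x ∂m = 0

section

variable {X : Type*} [MeasurableSpace X] {m : Measure X} [IsProbabilityMeasure m]
  {Γ : Type u} [AddCommGroup Γ] [DecidableEq Γ] {χ : Γ → X → ℂ}

theorem CharSys.sum (h : CharSys m χ) {ι : Type*} (s : Finset ι) (v : ι → Γ) (x : X) :
    χ (∑ i ∈ s, v i) x = ∏ i ∈ s, χ (v i) x := by
  classical
  induction s using Finset.induction_on with
  | empty => simp [h.zero]
  | insert a s ha ih => rw [Finset.sum_insert ha, Finset.prod_insert ha, h.add, ih]

theorem CharSys.neg (h : CharSys m χ) (a : Γ) (x : X) : χ (-a) x = (starRingEnd ℂ) (χ a x) := by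
  have h1 : χ (-a) x * χ a x = 1 := by rw [← h.add, neg_add_cancel, h.zero]
  have h2 : (starRingEnd ℂ) (χ a x) * χ a x = 1 := by
    rw [mul_comm, Complex.mul_conj, Complex.normSq_eq_norm_sq, h.norm]
    simp
  have h3 : χ a x ≠ 0 := by
    intro h0
    have := h.norm a x
    rw [h0, norm_zero] at this
    exact one_ne_zero this.symm
  exact mul_right_cancel₀ h3 (h1.trans h2.symm)

theorem CharSys.integrable (h : CharSys m χ) (a : Γ) : Integrable (χ a) m :=
  Integrable.of_bound (C := 1) (h.meas a).aestronglyMeasurable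
    (Filter.Eventually.of_forall fun x => (h.norm a x).le)

/-- The integral of the Riesz product. -/
theorem riesz_integral (h : CharSys m χ) (A : Finset Γ) (hA : Pool.Agent.H337R3.Sid.QI (A : Set Γ))
    (a : Γ → ℂ) (c s : Γ → ℝ) :
    ∫ x, ∏ k ∈ A, (c k + (a k * χ k x).re * s k) ∂m = ∏ k ∈ A, c k := by
  classical
  let T : Finset ℤ := {-1, 0, 1}
  let g : A → ℤ → ℂ := fun k ξ =>
    if ξ = 0 then (c k : ℂ) else if ξ = 1 then a k * s k / 2 else (starRingEnd ℂ) (a k) * s k / 2
  have key : ∀ x, ((∏ k ∈ A, (c k + (a k * χ k x).re * s k) : ℝ) : ℂ) =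
      ∑ p ∈ Fintype.piFinset (fun _ : A => T), (∏ k, g k (p k)) * χ (∑ k : A, p k • (k : Γ)) x := by
    intro x
    rw [← Finset.prod_coe_sort]
    push_cast
    have h1 : ∀ k : A, ((c k : ℂ) + ((a k * χ k x).re : ℂ) * s k) =
        ∑ ξ ∈ T, g k ξ * χ (ξ • (k : Γ)) x := by
      intro k
      have hT : ∑ ξ ∈ T, g k ξ * χ (ξ • (k : Γ)) x = g k (-1) * χ ((-1 : ℤ) • (k : Γ)) x +
          (g k 0 * χ ((0 : ℤ) • (k : Γ)) x + g k 1 * χ ((1 : ℤ) • (k : Γ)) x) := by
        rw [Finset.sum_insert (by decide), Finset.sum_insert (by decide), Finset.sum_singleton]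
      have : ((a k * χ k x).re : ℂ) = (a k * χ k x + (starRingEnd ℂ) (a k * χ k x)) / 2 := by
        rw [Complex.re_eq_add_conj]
      rw [hT, this, map_mul]
      have e0 : g k 0 = c k := if_pos rfl
      have e1 : g k 1 = a k * s k / 2 := by simp [g]
      have e2 : g k (-1) = (starRingEnd ℂ) (a k) * s k / 2 := by simp [g]
      rw [e0, e1, e2, neg_smul, one_smul, zero_smul, h.zero, h.neg]
      ring
    rw [Finset.prod_congr rfl (fun k _ => h1 k), Finset.prod_univ_sum]
    apply Finset.sum_congr rfl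
    intro p _
    rw [Finset.prod_mul_distrib, h.sum]
  have hint : ((∫ x, ∏ k ∈ A, (c k + (a k * χ k x).re * s k) ∂m : ℝ) : ℂ) =
      ((∏ k ∈ A, c k : ℝ) : ℂ) := by
    rw [← integral_complex_ofReal]
    simp only [key]
    rw [integral_finsetSum _ (fun p _ => (h.integrable _).const_mul _)]
    simp only [integral_const_mul]
    rw [Finset.sum_eq_single (fun _ => 0)]
    · simp only [zero_smul, Finset.sum_const_zero]
      have : ∫ x, χ 0 x ∂m = 1 := by simp [h.zero]
      rw [this, mul_one]
      simp only [g, if_true]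
      push_cast
      exact Finset.prod_coe_sort A (fun k => (c k : ℂ))
    · intro p hp hp0
      rw [h.orth, mul_zero]
      intro h0
      apply hp0
      rw [Fintype.mem_piFinset] at hp
      let ξ : Γ → ℤ := fun k => if hk : k ∈ A then p ⟨k, hk⟩ else 0
      have hξ : ∀ k ∈ A, ξ k = 0 := by
        apply hA A subset_rfl ξ
        · intro k hk
          have := hp ⟨k, hk⟩
          simp only [T, Finset.mem_insert, Finset.mem_singleton] at this
          simp only [ξ, dif_pos hk]
          exact this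
        · rw [← h0, ← Finset.sum_coe_sort]
          apply Finset.sum_congr rfl
          intro k _
          simp [ξ]
      funext k
      have := hξ k k.2
      simpa [ξ] using this
    · intro h0
      exfalso
      apply h0
      rw [Fintype.mem_piFinset]
      intro _
      simp [T]
  exact_mod_cast hint

/-- The trigonometric polynomial `∑_{k ∈ A} a_k χ_k`. -/
noncomputable def tp (χ : Γ → X → ℂ) (A : Finset Γ) (a : Γ → ℂ) (x : X) : ℂ := ∑ k ∈ A, a k * χ k x

theorem tp_meas (h : CharSys m χ) (A : Finset Γ) (a : Γ → ℂ) : Measurable (tp χ A a) :=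
  Finset.measurable_fun_sum _ (fun k _ => (h.meas k).const_mul _)

theorem tp_norm_le (h : CharSys m χ) (A : Finset Γ) (a : Γ → ℂ) (x : X) :
    ‖tp χ A a x‖ ≤ ∑ k ∈ A, ‖a k‖ := by
  refine (norm_sum_le _ _).trans (Finset.sum_le_sum fun k _ => ?_)
  rw [norm_mul, h.norm, mul_one]

/-- The exponential moment bound for quasi-independent sets. -/
theorem exp_moment (h : CharSys m χ) (A : Finset Γ) (hA : Pool.Agent.H337R3.Sid.QI (A : Set Γ))
    (a : Γ → ℂ) :
    ∫ x, Real.exp (tp χ A a x).re ∂m ≤ Real.exp ((∑ k ∈ A, ‖a k‖ ^ 2) / 2) := by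
  have hre : ∀ k x, |(a k * χ k x).re| ≤ ‖a k‖ := by
    intro k x
    refine (Complex.abs_re_le_norm _).trans ?_
    rw [norm_mul, h.norm, mul_one]
  have hm : ∀ k, Measurable fun x => (a k * χ k x).re := fun k =>
    Complex.measurable_re.comp ((h.meas k).const_mul _)
  have h1 : ∀ x, Real.exp (tp χ A a x).re ≤
      ∏ k ∈ A, (Real.cosh ‖a k‖ + (a k * χ k x).re * (Real.sinh ‖a k‖ / ‖a k‖)) := by
    intro x
    rw [tp, Complex.re_sum, Real.exp_sum]
    exact Finset.prod_le_prod (fun k _ => (Real.exp_pos _).le)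
      (fun k _ => exp_le_cosh_add _ _ (hre k x))
  have hb : ∀ k x, |Real.cosh ‖a k‖ + (a k * χ k x).re * (Real.sinh ‖a k‖ / ‖a k‖)| ≤
      Real.cosh ‖a k‖ + ‖a k‖ * |Real.sinh ‖a k‖ / ‖a k‖| := by
    intro k x
    refine (abs_add_le _ _).trans ?_
    rw [abs_of_pos (Real.cosh_pos _), abs_mul]
    exact add_le_add_right (mul_le_mul_of_nonneg_right (hre k x) (abs_nonneg _)) _
  calc ∫ x, Real.exp (tp χ A a x).re ∂m
      ≤ ∫ x, ∏ k ∈ A, (Real.cosh ‖a k‖ + (a k * χ k x).re * (Real.sinh ‖a k‖ / ‖a k‖)) ∂m := by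
        apply integral_mono_of_nonneg (Filter.Eventually.of_forall fun x => (Real.exp_pos _).le)
        · refine Integrable.of_bound
            (C := ∏ k ∈ A, (Real.cosh ‖a k‖ + ‖a k‖ * |Real.sinh ‖a k‖ / ‖a k‖|)) ?_ ?_
          · apply Measurable.aestronglyMeasurable
            apply Finset.measurable_fun_prod
            intro k _
            exact ((hm k).mul_const _).const_add _
          · refine Filter.Eventually.of_forall fun x => ?_
            rw [Real.norm_eq_abs, Finset.abs_prod]
            exact Finset.prod_le_prod (fun k _ => abs_nonneg _) (fun k _ => hb k x)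
        · exact Filter.Eventually.of_forall h1
    _ = ∏ k ∈ A, Real.cosh ‖a k‖ := riesz_integral h A hA a _ _
    _ ≤ ∏ k ∈ A, Real.exp (‖a k‖ ^ 2 / 2) :=
        Finset.prod_le_prod (fun k _ => (Real.cosh_pos _).le)
          (fun k _ => Real.cosh_le_exp_half_sq _)
    _ = Real.exp ((∑ k ∈ A, ‖a k‖ ^ 2) / 2) := by
        rw [← Real.exp_sum, Finset.sum_div]

theorem bdd_integrable {f : X → ℝ} (hf : Measurable f) {B : ℝ} (hB : ∀ x, |f x| ≤ B) :
    Integrable f m :=
  Integrable.of_bound (C := B) hf.aestronglyMeasurable (Filter.Eventually.of_forall fun x => hB x)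

theorem cosh_moment (h : CharSys m χ) (A : Finset Γ) (hA : Pool.Agent.H337R3.Sid.QI (A : Set Γ))
    (a : Γ → ℂ) (l : ℝ) :
    ∫ x, Real.cosh (l * (tp χ A a x).re) ∂m ≤ Real.exp (l ^ 2 * (∑ k ∈ A, ‖a k‖ ^ 2) / 2) := by
  have key : ∀ l : ℝ, ∫ x, Real.exp (l * (tp χ A a x).re) ∂m ≤
      Real.exp (l ^ 2 * (∑ k ∈ A, ‖a k‖ ^ 2) / 2) := by
    intro l
    have h1 := exp_moment h A hA (fun k => (l : ℂ) * a k)
    have h2 : ∀ x, (tp χ A (fun k => (l : ℂ) * a k) x).re = l * (tp χ A a x).re := by
      intro x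
      have : tp χ A (fun k => (l : ℂ) * a k) x = (l : ℂ) * tp χ A a x := by
        rw [tp, tp, Finset.mul_sum]
        exact Finset.sum_congr rfl fun k _ => by ring
      rw [this, Complex.re_ofReal_mul]
    simp only [h2] at h1
    refine h1.trans (le_of_eq ?_)
    congr 2
    rw [Finset.mul_sum]
    apply Finset.sum_congr rfl
    intro k _
    rw [norm_mul, mul_pow, Complex.norm_real, Real.norm_eq_abs, sq_abs]
  have hint : ∀ l : ℝ, Integrable (fun x => Real.exp (l * (tp χ A a x).re)) m := by
    intro l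
    apply bdd_integrable (B := Real.exp (|l| * ∑ k ∈ A, ‖a k‖))
    · exact Real.measurable_exp.comp ((Complex.measurable_re.comp (tp_meas h A a)).const_mul _)
    · intro x
      rw [abs_of_pos (Real.exp_pos _)]
      apply Real.exp_le_exp.mpr
      refine (le_abs_self _).trans ?_
      rw [abs_mul]
      exact mul_le_mul_of_nonneg_left ((Complex.abs_re_le_norm _).trans (tp_norm_le h A a x))
        (abs_nonneg _)
  have h3 : ∀ x, Real.cosh (l * (tp χ A a x).re) =
      (Real.exp (l * (tp χ A a x).re) + Real.exp (-l * (tp χ A a x).re)) / 2 := by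
    intro x
    rw [Real.cosh_eq, neg_mul]
  simp only [h3]
  rw [integral_div, integral_add (hint l) (hint (-l))]
  have h4 := key l
  have h5 := key (-l)
  rw [neg_sq] at h5
  linarith

end

/-- Moments of subgaussian functions. -/
theorem moment_le {X : Type*} [MeasurableSpace X] {m : Measure X} [IsProbabilityMeasure m]
    {f : X → ℝ} (hf : Measurable f) {B : ℝ} (hB : ∀ x, |f x| ≤ B) {V : ℝ} (hV : 0 < V)
    (hcosh : ∀ l : ℝ, ∫ x, Real.cosh (l * f x) ∂m ≤ Real.exp (l ^ 2 * V / 2)) (k : ℕ) :
    ∫ x, f x ^ (2 * k) ∂m ≤ k.factorial * (Real.exp 1 * V) ^ k := by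
  rcases Nat.eq_zero_or_pos k with hk | hk
  · subst hk
    simp
  · have hk' : (0 : ℝ) < k := by exact_mod_cast hk
    set l : ℝ := Real.sqrt (2 * k / V) with hl
    have hl2 : l ^ 2 = 2 * k / V := Real.sq_sqrt (by positivity)
    have hlp : 0 < l := Real.sqrt_pos.mpr (by positivity)
    have h1 : ∀ x, f x ^ (2 * k) ≤ (2 * k).factorial / l ^ (2 * k) * Real.cosh (l * f x) := by
      intro x
      have h2 := pow_le_cosh (l * f x) k
      rw [mul_pow] at h2
      have h3 : (0 : ℝ) < (2 * k).factorial := by positivity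
      have h4 : 0 < l ^ (2 * k) := by positivity
      rw [div_mul_eq_mul_div, le_div_iff₀ h4]
      rw [div_le_iff₀ h3] at h2
      linarith
    have hcint : Integrable (fun x => Real.cosh (l * f x)) m := by
      apply bdd_integrable (B := Real.cosh (l * B))
      · exact Real.measurable_cosh.comp (hf.const_mul _)
      · intro x
        rw [abs_of_pos (Real.cosh_pos _)]
        apply Real.cosh_le_cosh.mpr
        rw [abs_mul, abs_mul]
        exact mul_le_mul_of_nonneg_left ((hB x).trans (le_abs_self _)) (abs_nonneg _)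
    calc ∫ x, f x ^ (2 * k) ∂m
        ≤ ∫ x, (2 * k).factorial / l ^ (2 * k) * Real.cosh (l * f x) ∂m := by
          apply integral_mono_of_nonneg
          · exact Filter.Eventually.of_forall fun x => by
              have : (0 : ℝ) ≤ f x ^ (2 * k) := by rw [pow_mul]; positivity
              exact this
          · exact hcint.const_mul _
          · exact Filter.Eventually.of_forall h1
      _ = (2 * k).factorial / l ^ (2 * k) * ∫ x, Real.cosh (l * f x) ∂m := integral_const_mul _ _
      _ ≤ (2 * k).factorial / l ^ (2 * k) * Real.exp (l ^ 2 * V / 2) :=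
          mul_le_mul_of_nonneg_left (hcosh l) (by positivity)
      _ = (2 * k).factorial / (2 * k / V) ^ k * Real.exp 1 ^ k := by
          rw [pow_mul, hl2, ← Real.exp_nat_mul]
          congr 2
          field_simp
      _ ≤ (k.factorial * (2 * k) ^ k) / (2 * k / V) ^ k * Real.exp 1 ^ k := by
          apply mul_le_mul_of_nonneg_right _ (by positivity)
          apply div_le_div_of_nonneg_right _ (by positivity)
          exact fact_le k
      _ = k.factorial * (Real.exp 1 * V) ^ k := by
          rw [div_pow, mul_pow (Real.exp 1)]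
          have : ((2 : ℝ) * k) ^ k ≠ 0 := by positivity
          field_simp

/-- The square exponential moment of subgaussian functions. -/
theorem sq_exp_le {X : Type*} [MeasurableSpace X] {m : Measure X} [IsProbabilityMeasure m]
    {f : X → ℝ} (hf : Measurable f) {B : ℝ} (hB : ∀ x, |f x| ≤ B) {V : ℝ} (hV : 0 < V)
    (hcosh : ∀ l : ℝ, ∫ x, Real.cosh (l * f x) ∂m ≤ Real.exp (l ^ 2 * V / 2)) :
    ∫⁻ x, ENNReal.ofReal (Real.exp (f x ^ 2 / (2 * Real.exp 1 * V))) ∂m ≤ 2 := by
  set D : ℝ := 2 * Real.exp 1 * V with hD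
  have hDp : 0 < D := by positivity
  have h1 : ∀ x, ENNReal.ofReal (Real.exp (f x ^ 2 / D)) =
      ∑' k : ℕ, ENNReal.ofReal (f x ^ (2 * k) / (D ^ k * k.factorial)) := by
    intro x
    have hs : HasSum (fun k : ℕ => (f x ^ 2 / D) ^ k / k.factorial) (Real.exp (f x ^ 2 / D)) := by
      rw [Real.exp_eq_exp_ℝ]
      exact NormedSpace.expSeries_div_hasSum_exp (f x ^ 2 / D)
    rw [← hs.tsum_eq, ENNReal.ofReal_tsum_of_nonneg]
    · congr 1
      funext k
      congr 1
      rw [div_pow, pow_mul, div_div]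
    · intro k
      positivity
    · exact hs.summable
  simp only [h1]
  rw [lintegral_tsum]
  · have h2 : ∀ k : ℕ, ∫⁻ x, ENNReal.ofReal (f x ^ (2 * k) / (D ^ k * k.factorial)) ∂m ≤
        ENNReal.ofReal ((1 / 2) ^ k) := by
      intro k
      rw [← ofReal_integral_eq_lintegral_ofReal]
      · apply ENNReal.ofReal_le_ofReal
        rw [integral_div, div_le_iff₀ (by positivity)]
        refine (moment_le hf hB hV hcosh k).trans (le_of_eq ?_)
        rw [hD, mul_pow, mul_pow, mul_pow, div_pow, one_pow]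
        field_simp
      · apply Integrable.div_const
        apply bdd_integrable (B := B ^ (2 * k))
        · exact hf.pow_const _
        · intro x
          rw [abs_pow]
          exact pow_le_pow_left₀ (abs_nonneg _) (hB x) _
      · refine Filter.Eventually.of_forall fun x => ?_
        have : (0 : ℝ) ≤ f x ^ (2 * k) := by rw [pow_mul]; positivity
        positivity
    calc ∑' k : ℕ, ∫⁻ x, ENNReal.ofReal (f x ^ (2 * k) / (D ^ k * k.factorial)) ∂m
        ≤ ∑' k : ℕ, ENNReal.ofReal ((1 / 2) ^ k) := ENNReal.tsum_le_tsum h2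
      _ = ENNReal.ofReal (∑' k : ℕ, (1 / 2) ^ k) := by
          rw [ENNReal.ofReal_tsum_of_nonneg (fun k => by positivity) summable_geometric_two]
      _ = 2 := by rw [tsum_geometric_two]; norm_num
  · intro k
    apply Measurable.aemeasurable
    exact ENNReal.measurable_ofReal.comp ((hf.pow_const _).div_const _)

end Pool.Agent.J4H85.SG
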