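import Pool.Agent.J4H85.SG1

set_option autoImplicit false
set_option linter.unusedSectionVars false

namespace Pool.Agent.J4H85.SG

open MeasureTheory Finset

universe u

/-- The `ψ₂` norm. -/
noncomputable def psi2 {X : Type*} [MeasurableSpace X] (m : Measure X) (f : X → ℂ) : ENNReal :=
  ⨅ (c : ℝ) (_ : 0 < c) (_ : ∫⁻ x, ENNReal.ofReal (Real.exp (‖f x‖ ^ 2 / c ^ 2)) ∂m ≤
    ENNReal.ofReal (Real.exp 1)), ENNReal.ofReal c

section

variable {X : Type*} [MeasurableSpace X] {m : Measure X} [IsProbabilityMeasure m]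
  {Γ : Type u} [AddCommGroup Γ] [DecidableEq Γ] {χ : Γ → X → ℂ}

theorem tp_re_bound (h : CharSys m χ) (A : Finset Γ) (hA : Pool.Agent.H337R3.Sid.QI (A : Set Γ))
    (a : Γ → ℂ) (V : ℝ) (hV : 0 < V) (haV : ∑ k ∈ A, ‖a k‖ ^ 2 ≤ V) :
    ∫⁻ x, ENNReal.ofReal (Real.exp ((tp χ A a x).re ^ 2 / (2 * Real.exp 1 * V))) ∂m ≤ 2 := by
  apply sq_exp_le (B := ∑ k ∈ A, ‖a k‖) (Complex.measurable_re.comp (tp_meas h A a)) _ hV
  · intro l
    refine (cosh_moment h A hA a l).trans (Real.exp_le_exp.mpr ?_)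
    apply div_le_div_of_nonneg_right _ (by norm_num)
    exact mul_le_mul_of_nonneg_left haV (sq_nonneg _)
  · intro x
    exact (Complex.abs_re_le_norm _).trans (tp_norm_le h A a x)

theorem tp_bound (h : CharSys m χ) (A : Finset Γ) (hA : Pool.Agent.H337R3.Sid.QI (A : Set Γ))
    (a : Γ → ℂ) (V : ℝ) (hV : 0 < V) (haV : ∑ k ∈ A, ‖a k‖ ^ 2 ≤ V) :
    ∫⁻ x, ENNReal.ofReal (Real.exp (‖tp χ A a x‖ ^ 2 / (4 * Real.exp 1 * V))) ∂m ≤ 2 := by
  have h1 := tp_re_bound h A hA a V hV haV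
  have h2 := tp_re_bound h A hA (fun k => -Complex.I * a k) V hV (by
    simpa [norm_mul] using haV)
  have h3 : ∀ x, (tp χ A (fun k => -Complex.I * a k) x).re = (tp χ A a x).im := by
    intro x
    have : tp χ A (fun k => -Complex.I * a k) x = -Complex.I * tp χ A a x := by
      rw [tp, tp, Finset.mul_sum]
      exact Finset.sum_congr rfl fun k _ => by ring
    rw [this]
    simp
  simp only [h3] at h2
  set D : ℝ := 2 * Real.exp 1 * V with hD
  have hDp : 0 < D := by positivity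
  have h4 : ∀ x, ENNReal.ofReal (Real.exp (‖tp χ A a x‖ ^ 2 / (4 * Real.exp 1 * V))) ≤
      (ENNReal.ofReal (Real.exp ((tp χ A a x).re ^ 2 / D)) +
        ENNReal.ofReal (Real.exp ((tp χ A a x).im ^ 2 / D))) / 2 := by
    intro x
    rw [← ENNReal.ofReal_add (Real.exp_pos _).le (Real.exp_pos _).le,
      show (2 : ENNReal) = ENNReal.ofReal 2 by norm_num, ← ENNReal.ofReal_div_of_pos (by norm_num)]
    apply ENNReal.ofReal_le_ofReal
    set u := (tp χ A a x).re ^ 2 / D with hu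
    set v := (tp χ A a x).im ^ 2 / D with hv
    have h5 : ‖tp χ A a x‖ ^ 2 / (4 * Real.exp 1 * V) = u / 2 + v / 2 := by
      rw [← Complex.normSq_eq_norm_sq, Complex.normSq_apply, hu, hv, hD]
      field_simp
      ring
    rw [h5, Real.exp_add]
    have h6 : Real.exp u = Real.exp (u / 2) ^ 2 := by
      rw [← Real.exp_nat_mul]; congr 1; push_cast; ring
    have h7 : Real.exp v = Real.exp (v / 2) ^ 2 := by
      rw [← Real.exp_nat_mul]; congr 1; push_cast; ring
    rw [h6, h7]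
    nlinarith [sq_nonneg (Real.exp (u / 2) - Real.exp (v / 2))]
  have hm1 : Measurable fun x => ENNReal.ofReal (Real.exp ((tp χ A a x).re ^ 2 / D)) :=
    ENNReal.measurable_ofReal.comp (Real.measurable_exp.comp
      (((Complex.measurable_re.comp (tp_meas h A a)).pow_const _).div_const _))
  calc ∫⁻ x, ENNReal.ofReal (Real.exp (‖tp χ A a x‖ ^ 2 / (4 * Real.exp 1 * V))) ∂m
      ≤ ∫⁻ x, (ENNReal.ofReal (Real.exp ((tp χ A a x).re ^ 2 / D)) +
        ENNReal.ofReal (Real.exp ((tp χ A a x).im ^ 2 / D))) / 2 ∂m := lintegral_mono h4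
    _ = ((∫⁻ x, ENNReal.ofReal (Real.exp ((tp χ A a x).re ^ 2 / D)) ∂m) +
        ∫⁻ x, ENNReal.ofReal (Real.exp ((tp χ A a x).im ^ 2 / D)) ∂m) / 2 := by
        simp only [ENNReal.div_eq_inv_mul]
        rw [lintegral_const_mul' _ _ (by simp), lintegral_add_left hm1]
    _ ≤ (2 + 2) / 2 := by
        apply ENNReal.div_le_div_right
        exact add_le_add h1 h2
    _ = 2 := by
        rw [show (2 : ENNReal) + 2 = 2 * 2 by norm_num, mul_div_assoc, ENNReal.div_self (by norm_num)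
          (by norm_num), mul_one]

/-- A finite union of quasi-independent sets satisfies the square exponential bound. -/
theorem tp_union_bound (h : CharSys m χ) (K : ℕ) (Q : Fin K → Set Γ)
    (hQ : ∀ i, Pool.Agent.H337R3.Sid.QI (Q i)) (A : Finset Γ) (hA : (A : Set Γ) ⊆ ⋃ i, Q i)
    (a : Γ → ℂ) (V : ℝ) (hV : 0 < V) (haV : ∑ k ∈ A, ‖a k‖ ^ 2 ≤ V) :
    ∫⁻ x, ENNReal.ofReal
      (Real.exp (‖tp χ A a x‖ ^ 2 / (4 * Real.exp 1 * (K + 1) ^ 2 * V))) ∂m ≤ 2 := by
  classical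
  have hc : ∀ x : Γ, ∃ i : Fin (K + 1), x ∈ A → ∃ j : Fin K, j.castSucc = i ∧ x ∈ Q j := by
    intro x
    by_cases hx : x ∈ A
    · obtain ⟨j, hj⟩ := Set.mem_iUnion.mp (hA hx)
      exact ⟨j.castSucc, fun _ => ⟨j, rfl, hj⟩⟩
    · exact ⟨0, fun h => absurd h hx⟩
  choose c hc using hc
  let B : Fin (K + 1) → Finset Γ := fun i => A.filter (fun x => c x = i)
  have hB : ∀ i, Pool.Agent.H337R3.Sid.QI (B i : Set Γ) := by
    intro i
    by_cases hi : ∃ j : Fin K, j.castSucc = i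
    · obtain ⟨j, hj⟩ := hi
      intro E hE ξ hξ hs
      refine hQ j E ?_ ξ hξ hs
      intro x hx
      have hx1 := Finset.mem_filter.mp (Finset.mem_coe.mp (hE hx))
      obtain ⟨j', hj', hxj⟩ := hc x hx1.1
      have : j' = j := by
        apply Fin.castSucc_injective
        rw [hj', hx1.2, hj]
      rwa [this] at hxj
    · intro E hE ξ hξ hs x hx
      exfalso
      have hx1 := Finset.mem_filter.mp (Finset.mem_coe.mp (hE hx))
      obtain ⟨j', hj', _⟩ := hc x hx1.1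
      exact hi ⟨j', hj'.trans hx1.2⟩
  have hsum : ∀ x, tp χ A a x = ∑ i, tp χ (B i) a x := by
    intro x
    rw [tp]
    simp only [tp, B]
    rw [Finset.sum_fiberwise]
  have hBV : ∀ i, ∑ k ∈ B i, ‖a k‖ ^ 2 ≤ V := fun i =>
    (Finset.sum_le_sum_of_subset_of_nonneg (Finset.filter_subset _ _)
      (fun _ _ _ => by positivity)).trans haV
  have h1 : ∀ i, ∫⁻ x, ENNReal.ofReal
      (Real.exp (‖tp χ (B i) a x‖ ^ 2 / (4 * Real.exp 1 * V))) ∂m ≤ 2 := fun i =>
    tp_bound h (B i) (hB i) a V hV (hBV i)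
  have hK : (0 : ℝ) < (K : ℝ) + 1 := by positivity
  have h2 : ∀ x, Real.exp (‖tp χ A a x‖ ^ 2 / (4 * Real.exp 1 * (K + 1) ^ 2 * V)) ≤
      ∑ i : Fin (K + 1), (1 / ((K : ℝ) + 1)) *
        Real.exp (‖tp χ (B i) a x‖ ^ 2 / (4 * Real.exp 1 * V)) := by
    intro x
    have hJ := convexOn_exp.map_sum_le (t := (Finset.univ : Finset (Fin (K + 1))))
      (w := fun _ => 1 / ((K : ℝ) + 1))
      (p := fun i => ‖tp χ (B i) a x‖ ^ 2 / (4 * Real.exp 1 * V))
      (fun i _ => by positivity) (by simp; field_simp) (fun i _ => Set.mem_univ _)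
    simp only [smul_eq_mul] at hJ
    refine le_trans (Real.exp_le_exp.mpr ?_) hJ
    have h3 : ‖tp χ A a x‖ ≤ ∑ i, ‖tp χ (B i) a x‖ := by
      rw [hsum]; exact norm_sum_le _ _
    have h4 : (∑ i, ‖tp χ (B i) a x‖) ^ 2 ≤ ((K : ℝ) + 1) * ∑ i, ‖tp χ (B i) a x‖ ^ 2 := by
      have := sq_sum_le_card_mul_sum_sq (s := (Finset.univ : Finset (Fin (K + 1))))
        (f := fun i => ‖tp χ (B i) a x‖)
      simpa using this
    have h5 : ‖tp χ A a x‖ ^ 2 ≤ ((K : ℝ) + 1) * ∑ i, ‖tp χ (B i) a x‖ ^ 2 :=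
      (pow_le_pow_left₀ (norm_nonneg _) h3 2).trans h4
    have h6 : ∑ i : Fin (K + 1), 1 / ((K : ℝ) + 1) * (‖tp χ (B i) a x‖ ^ 2 / (4 * Real.exp 1 * V)) =
        (((K : ℝ) + 1) * ∑ i, ‖tp χ (B i) a x‖ ^ 2) / (4 * Real.exp 1 * (K + 1) ^ 2 * V) := by
      rw [Finset.mul_sum, Finset.sum_div]
      apply Finset.sum_congr rfl
      intro i _
      have : Real.exp 1 ≠ 0 := (Real.exp_pos _).ne'
      field_simp
    rw [h6]
    apply div_le_div_of_nonneg_right h5
    positivity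
  have hm : ∀ i, Measurable fun x => ENNReal.ofReal
      (Real.exp (‖tp χ (B i) a x‖ ^ 2 / (4 * Real.exp 1 * V))) := fun i =>
    ENNReal.measurable_ofReal.comp (Real.measurable_exp.comp
      (((tp_meas h (B i) a).norm.pow_const _).div_const _))
  calc _ ≤ ∫⁻ x, ∑ i : Fin (K + 1), ENNReal.ofReal (1 / ((K : ℝ) + 1)) * ENNReal.ofReal
          (Real.exp (‖tp χ (B i) a x‖ ^ 2 / (4 * Real.exp 1 * V))) ∂m := by
        apply lintegral_mono
        intro x
        refine (ENNReal.ofReal_le_ofReal (h2 x)).trans (le_of_eq ?_)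
        rw [ENNReal.ofReal_sum_of_nonneg (fun i _ => by positivity)]
        apply Finset.sum_congr rfl
        intro i _
        rw [ENNReal.ofReal_mul (by positivity)]
    _ = ∑ i : Fin (K + 1), ENNReal.ofReal (1 / ((K : ℝ) + 1)) * ∫⁻ x, ENNReal.ofReal
          (Real.exp (‖tp χ (B i) a x‖ ^ 2 / (4 * Real.exp 1 * V))) ∂m := by
        rw [lintegral_finsetSum _ (fun i _ => (hm i).const_mul _)]
        apply Finset.sum_congr rfl
        intro i _
        rw [lintegral_const_mul _ (hm i)]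
    _ ≤ ∑ i : Fin (K + 1), ENNReal.ofReal (1 / ((K : ℝ) + 1)) * 2 :=
        Finset.sum_le_sum fun i _ => mul_le_mul_right (h1 i) _
    _ = 2 := by
        rw [Finset.sum_const, Finset.card_univ, Fintype.card_fin, nsmul_eq_mul, ← mul_assoc]
        have : ((K + 1 : ℕ) : ENNReal) * ENNReal.ofReal (1 / ((K : ℝ) + 1)) = 1 := by
          rw [show ((K + 1 : ℕ) : ENNReal) = ENNReal.ofReal ((K : ℝ) + 1) by
            rw [← ENNReal.ofReal_natCast]; push_cast; rfl, ← ENNReal.ofReal_mul hK.le]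
          rw [mul_one_div_cancel hK.ne', ENNReal.ofReal_one]
        rw [this, one_mul]

/-- `Λ` is subgaussian for the system `χ`. -/
def SubG (m : Measure X) (χ : Γ → X → ℂ) (Λ : Set Γ) : Prop :=
  ∃ C : ℝ, ∀ (A : Finset Γ) (a : Γ → ℂ), (A : Set Γ) ⊆ Λ →
    psi2 m (tp χ A a) ≤ ENNReal.ofReal (C * Real.sqrt (∑ k ∈ A, ‖a k‖ ^ 2))

theorem psi2_le (f : X → ℂ) (c : ℝ) (hc : 0 < c)
    (h : ∫⁻ x, ENNReal.ofReal (Real.exp (‖f x‖ ^ 2 / c ^ 2)) ∂m ≤ ENNReal.ofReal (Real.exp 1)) :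
    psi2 m f ≤ ENNReal.ofReal c :=
  iInf_le_of_le c (iInf_le_of_le hc (iInf_le_of_le h le_rfl))

theorem psi2_lt (f : X → ℂ) (c : ℝ) (hc : 0 < c) (h : psi2 m f < ENNReal.ofReal c) :
    ∫⁻ x, ENNReal.ofReal (Real.exp (‖f x‖ ^ 2 / c ^ 2)) ∂m ≤ ENNReal.ofReal (Real.exp 1) := by
  rw [psi2, iInf_lt_iff] at h
  obtain ⟨d, hd⟩ := h
  rw [iInf_lt_iff] at hd
  obtain ⟨hd0, hd⟩ := hd
  rw [iInf_lt_iff] at hd
  obtain ⟨hd1, hd⟩ := hd
  have hdc : d < c := (ENNReal.ofReal_lt_ofReal_iff hc).mp hd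
  refine le_trans (lintegral_mono fun x => ENNReal.ofReal_le_ofReal (Real.exp_le_exp.mpr ?_)) hd1
  exact div_le_div_of_nonneg_left (sq_nonneg _) (by positivity)
    (pow_le_pow_left₀ hd0.le hdc.le 2)

theorem psi2_zero : psi2 m (fun _ : X => (0 : ℂ)) = 0 := by
  have h : ∀ c : ℝ, 0 < c → psi2 m (fun _ : X => (0 : ℂ)) ≤ ENNReal.ofReal c := by
    intro c hc
    apply psi2_le _ c hc
    simp
  by_contra h0
  have h1 : 0 < psi2 m (fun _ : X => (0 : ℂ)) := pos_iff_ne_zero.mpr h0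
  have hfin : psi2 m (fun _ : X => (0 : ℂ)) ≠ ⊤ := ne_top_of_le_ne_top ENNReal.ofReal_ne_top
    (h 1 one_pos)
  set r := (psi2 m (fun _ : X => (0 : ℂ))).toReal with hr
  have hrp : 0 < r := ENNReal.toReal_pos h0 hfin
  have h2 := h (r / 2) (by positivity)
  rw [← ENNReal.ofReal_toReal hfin, ← hr, ENNReal.ofReal_le_ofReal_iff (by positivity)] at h2
  linarith

/-- Finite unions of quasi-independent sets are subgaussian. -/
theorem subG_of_union (h : CharSys m χ) (K : ℕ) (Q : Fin K → Set Γ)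
    (hQ : ∀ i, Pool.Agent.H337R3.Sid.QI (Q i)) (Λ : Set Γ) (hΛ : Λ = ⋃ i, Q i) : SubG m χ Λ := by
  refine ⟨2 * Real.sqrt (Real.exp 1) * (K + 1), ?_⟩
  intro A a hA
  have hS : 0 ≤ ∑ k ∈ A, ‖a k‖ ^ 2 := Finset.sum_nonneg fun _ _ => by positivity
  rcases hS.eq_or_lt with h0 | h0
  · have hz : ∀ k ∈ A, a k = 0 := by
      intro k hk
      have := (Finset.sum_eq_zero_iff_of_nonneg (fun _ _ => by positivity)).mp h0.symm k hk
      exact norm_eq_zero.mp (pow_eq_zero_iff (two_ne_zero) |>.mp this)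
    have : tp χ A a = fun _ => 0 := by
      funext x
      rw [tp]
      exact Finset.sum_eq_zero fun k hk => by rw [hz k hk, zero_mul]
    rw [this, psi2_zero]
    exact zero_le
  · apply psi2_le
    · positivity
    · have h1 := tp_union_bound h K Q hQ A (hΛ ▸ hA) a _ h0 le_rfl
      have h2 : (2 * Real.sqrt (Real.exp 1) * (K + 1) * Real.sqrt (∑ k ∈ A, ‖a k‖ ^ 2)) ^ 2 =
          4 * Real.exp 1 * (K + 1) ^ 2 * ∑ k ∈ A, ‖a k‖ ^ 2 := by
        rw [mul_pow, mul_pow, mul_pow, Real.sq_sqrt (Real.exp_pos _).le, Real.sq_sqrt hS]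
        ring
      rw [h2]
      refine h1.trans ?_
      rw [show (2 : ENNReal) = ENNReal.ofReal 2 by norm_num]
      apply ENNReal.ofReal_le_ofReal
      have := Real.add_one_le_exp (1 : ℝ)
      linarith

/-- The annihilator of a finite subgroup `H` has measure `1 / |H|`. -/
theorem measure_ann (h : CharSys m χ) (H : AddSubgroup Γ) [Fintype H] :
    m {x | ∀ γ : H, χ γ x = 1} = ENNReal.ofReal (1 / Fintype.card H) := by
  classical
  set P : Set X := {x | ∀ γ : H, χ γ x = 1} with hP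
  have hPm : MeasurableSet P := by
    rw [hP, Set.ofPred_forall]
    exact MeasurableSet.iInter fun γ => measurableSet_eq_fun (h.meas _) measurable_const
  have hN : (Fintype.card H : ℂ) ≠ 0 := by
    exact_mod_cast Fintype.card_ne_zero
  have h1 : ∀ x, ∑ γ : H, χ γ x = P.indicator (fun _ => (Fintype.card H : ℂ)) x := by
    intro x
    let ψ : AddChar H ℂ :=
      { toFun := fun γ => χ (γ : Γ) x
        map_zero_eq_one' := by simp [h.zero]
        map_add_eq_mul' := fun a b => by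
          simp only [AddSubgroup.coe_add]
          exact h.add _ _ _ }
    have h2 := AddChar.sum_eq_ite ψ
    have h3 : ∑ γ : H, ψ γ = ∑ γ : H, χ γ x := rfl
    rw [← h3, h2]
    by_cases hx : x ∈ P
    · rw [Set.indicator_of_mem hx]
      have : ψ = 0 := by
        ext γ
        exact hx γ
      rw [if_pos this]
    · rw [Set.indicator_of_notMem hx]
      have : ψ ≠ 0 := by
        intro h0
        apply hx
        intro γ
        have : ψ γ = (0 : AddChar H ℂ) γ := by rw [h0]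
        rw [AddChar.zero_apply] at this
        exact this
      rw [if_neg this]
  have h2 : ∫ x, ∑ γ : H, χ γ x ∂m = 1 := by
    rw [integral_finsetSum _ (fun γ _ => h.integrable _), Finset.sum_eq_single 0]
    · simp [h.zero]
    · intro γ _ hγ
      apply h.orth
      intro h0
      exact hγ (Subtype.ext h0)
    · intro h0
      exact absurd (Finset.mem_univ _) h0
  simp only [h1] at h2
  rw [integral_indicator hPm, integral_const] at h2
  have h3 : m.real P = 1 / Fintype.card H := by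
    have h4 : ((m.real P : ℝ) : ℂ) * (Fintype.card H : ℂ) = 1 := by
      rw [← h2]
      simp
    have h5 : m.real P * (Fintype.card H : ℝ) = 1 := by exact_mod_cast h4
    rw [eq_div_iff]
    · exact h5
    · exact_mod_cast Fintype.card_ne_zero
  rw [← h3, measureReal_def, ENNReal.ofReal_toReal (measure_ne_top _ _)]

/-- A subgaussian set is small. -/
theorem small_of_subG (h : CharSys m χ) (Λ : Set Γ)
    (hfin : ∀ D : Finset Γ, (D : Set Γ) ⊆ Λ → Finite (AddSubgroup.closure (D : Set Γ)))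
    (h0 : (0 : Γ) ∉ Λ) (hΛ : SubG m χ Λ) : ∃ K : ℕ, Pool.Agent.H337R3.Sid.Small K Λ := by
  obtain ⟨C, hC⟩ := hΛ
  set C' : ℝ := max C 0 + 1 with hC'
  have hC'1 : 1 ≤ C' := by
    have := le_max_right C 0
    linarith
  have hCC' : C < C' := by
    have := le_max_left C 0
    linarith
  refine ⟨⌈3 * C' ^ 2⌉₊, ?_⟩
  intro A hA
  by_cases hAe : A.Nonempty
  swap
  · rw [Finset.not_nonempty_iff_eq_empty] at hAe
    subst hAe
    simp only [Finset.card_empty, pow_zero]
    apply Nat.one_le_pow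
    have := hfin ∅ (by simp)
    exact Nat.card_pos
  have hAcard : 0 < A.card := Finset.card_pos.mpr hAe
  have hAc : (0 : ℝ) < A.card := by exact_mod_cast hAcard
  set M := AddSubgroup.closure (A : Set Γ) with hM
  have hMfin : Finite M := hfin A hA
  let _ := Fintype.ofFinite M
  set N := Nat.card M with hN
  have hNF : Fintype.card M = N := by rw [hN, Nat.card_eq_fintype_card]
  have hN2 : 2 ≤ N := by
    obtain ⟨x, hx⟩ := hAe
    have hx0 : x ≠ 0 := by
      rintro rfl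
      exact h0 (hA hx)
    have : Nontrivial M := ⟨⟨⟨x, AddSubgroup.subset_closure hx⟩, 0, fun h => hx0 (by
      have := congrArg Subtype.val h
      simpa using this)⟩⟩
    exact Finite.one_lt_card
  have hNpos : (0 : ℝ) < N := by exact_mod_cast (by omega : 0 < N)
  -- the function with unit coefficients
  have h1 := hC A (fun _ => 1) hA
  have hsum1 : ∑ _k ∈ A, ‖(1 : ℂ)‖ ^ 2 = A.card := by simp
  rw [hsum1] at h1
  have hsq : 0 < Real.sqrt A.card := Real.sqrt_pos.mpr hAc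
  have h2 : psi2 m (tp χ A (fun _ => 1)) < ENNReal.ofReal (C' * Real.sqrt A.card) :=
    h1.trans_lt ((ENNReal.ofReal_lt_ofReal_iff (by positivity)).mpr
      (mul_lt_mul_of_pos_right hCC' hsq))
  have h3 := psi2_lt _ _ (by positivity) h2
  set ε : ENNReal := ENNReal.ofReal (Real.exp (A.card / C' ^ 2)) with hε
  have hmeas : Measurable fun x => ENNReal.ofReal
      (Real.exp (‖tp χ A (fun _ => 1) x‖ ^ 2 / (C' * Real.sqrt A.card) ^ 2)) :=
    ENNReal.measurable_ofReal.comp (Real.measurable_exp.comp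
      (((tp_meas h A _).norm.pow_const _).div_const _))
  have h4 := mul_meas_ge_le_lintegral (μ := m) hmeas ε
  have h5 : {x | ∀ γ : M, χ γ x = 1} ⊆ {x | ε ≤ ENNReal.ofReal
      (Real.exp (‖tp χ A (fun _ => 1) x‖ ^ 2 / (C' * Real.sqrt A.card) ^ 2))} := by
    intro x hx
    have h6 : tp χ A (fun _ => 1) x = A.card := by
      rw [tp]
      have : ∀ k ∈ A, (1 : ℂ) * χ k x = 1 := by
        intro k hk
        rw [one_mul]
        exact hx ⟨k, AddSubgroup.subset_closure hk⟩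
      rw [Finset.sum_congr rfl this]
      simp
    simp only [Set.mem_ofPred_eq]
    rw [h6, hε]
    apply ENNReal.ofReal_le_ofReal
    apply Real.exp_le_exp.mpr
    rw [Complex.norm_natCast, mul_pow, Real.sq_sqrt hAc.le]
    apply le_of_eq
    field_simp
  have h6 : ε * ENNReal.ofReal (1 / N) ≤ ENNReal.ofReal (Real.exp 1) := by
    have h7 := measure_ann h M
    rw [hNF] at h7
    rw [← h7]
    exact ((mul_le_mul_right (measure_mono h5) _).trans h4).trans h3
  rw [hε, ← ENNReal.ofReal_mul (Real.exp_pos _).le, ENNReal.ofReal_le_ofReal_iff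
    (Real.exp_pos _).le, mul_one_div, div_le_iff₀ hNpos] at h6
  have h7 : (A.card : ℝ) / C' ^ 2 ≤ 1 + Real.log N := by
    have h8 := Real.log_le_log (Real.exp_pos _) h6
    rwa [Real.log_exp, Real.log_mul (Real.exp_pos _).ne' hNpos.ne', Real.log_exp] at h8
  have hlog2 : (1 : ℝ) / 2 ≤ Real.log 2 := by
    have := Real.log_two_gt_d9
    linarith
  have hlog2' : Real.log 2 ≤ 1 := by
    have := Real.log_two_lt_d9
    linarith
  have hlogN : Real.log 2 ≤ Real.log N := Real.log_le_log (by norm_num) (by exact_mod_cast hN2)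
  have hC'2 : 0 < C' ^ 2 := by positivity
  have h8 : (A.card : ℝ) ≤ 3 * C' ^ 2 * Real.log N := by
    rw [div_le_iff₀ hC'2] at h7
    nlinarith
  have h9 : (A.card : ℝ) * Real.log 2 ≤ (⌈3 * C' ^ 2⌉₊ : ℝ) * Real.log N := by
    calc (A.card : ℝ) * Real.log 2 ≤ A.card * 1 := mul_le_mul_of_nonneg_left hlog2' (by positivity)
      _ ≤ 3 * C' ^ 2 * Real.log N := by rw [mul_one]; exact h8
      _ ≤ _ := mul_le_mul_of_nonneg_right (Nat.le_ceil _) (by linarith)
  have h10 : Real.log ((2 : ℝ) ^ A.card) ≤ Real.log ((N : ℝ) ^ ⌈3 * C' ^ 2⌉₊) := by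
    rw [Real.log_pow, Real.log_pow]
    exact h9
  have h11 := (Real.log_le_log_iff (by positivity) (by positivity)).mp h10
  exact_mod_cast h11

/-- **Main theorem (abstract form).** -/
theorem subG_iff (h : CharSys m χ) (n : ℕ) (hn : 0 < n) (Λ : Set Γ) (h0 : (0 : Γ) ∉ Λ)
    (hexp : ∀ x ∈ Λ, n • x = 0) :
    SubG m χ Λ ↔ ∃ (K : ℕ) (Q : Fin K → Set Γ),
      (∀ i, Pool.Agent.H337R3.Sid.QI (Q i)) ∧ Λ = ⋃ i, Q i := by
  constructor
  · intro hΛ
    obtain ⟨K, hK⟩ := small_of_subG h Λ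
      (fun D hD => Pool.Agent.H337R3.Sid.closure_finite n hn D
        (fun x hx => hexp x (hD (Finset.mem_coe.mpr hx)))) h0 hΛ
    obtain ⟨Q, hQ, hΛ⟩ := Pool.Agent.H337R3.Sid.finite_union
      n.primeFactorsList (fun q hq => Nat.prime_of_mem_primeFactorsList hq) K Λ
      (by rw [Nat.prod_primeFactorsList hn.ne']; exact hexp) hK
    exact ⟨_, Q, hQ, hΛ⟩
  · rintro ⟨K, Q, hQ, hΛ⟩
    exact subG_of_union h K Q hQ Λ hΛ

end

end Pool.Agent.J4H85.SG
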